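import Pool.Agent.Helper58.DP.Spec

/-!
# Deformation of a pair of free lines: the family
-/

set_option autoImplicit false
set_option linter.unusedSectionVars false

open Polynomial Finset DirectSum

namespace Pool.Agent.Helper58.DP

open Pool.Agent.Helper766_CF Pool.Agent.Helper766_CG Pool.Agent.Helper766_CH
open Pool.Agent.Helper58.CS Pool.Agent.Helper58.OP Pool.Agent.Helper58.SH Pool.Agent.Helper58.BG
open Pool.Agent.Helper58.LC Pool.Agent.Helper58.NS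

variable {R : Type} [CommRing R] [Algebra ℂ R] {𝒜 : ℕ → Submodule ℂ R} [GradedAlgebra 𝒜]
  {br : R →ₗ[ℂ] R →ₗ[ℂ] R} {k : Type} [Field k] [Algebra ℂ k]

lemma EN.comp' {T T' : Type} [CommRing T] [Algebra ℂ T] [CommRing T'] [Algebra ℂ T']
    {x : R →ₐ[ℂ] T} (hx : EN 𝒜 x) (ψ : T →ₐ[ℂ] T') : EN 𝒜 (ψ.comp x) := by
  rw [EN, Ideal.eq_top_iff_one] at hx ⊢
  have h1 := Ideal.mem_map_of_mem ψ hx
  rw [map_one, Ideal.map_span] at h1
  refine Ideal.span_mono ?_ h1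
  rintro _ ⟨t, ⟨d, hd, a, ha, rfl⟩, rfl⟩
  exact ⟨d, hd, a, ha, rfl⟩

section field

variable {K : Type} [Field K] [Algebra ℂ K]

lemma off_of_en {x : R →ₐ[ℂ] K} (hx : EN 𝒜 x) : ∃ d, 0 < d ∧ ∃ a ∈ 𝒜 d, x a ≠ 0 := by
  by_contra hcon
  push Not at hcon
  rw [EN, Ideal.eq_top_iff_one] at hx
  have h1 : Ideal.span {t : K | ∃ k : ℕ, 0 < k ∧ ∃ a ∈ 𝒜 k, x a = t} ≤ ⊥ := by
    rw [Ideal.span_le]
    rintro _ ⟨d, hd, a, ha, rfl⟩
    exact hcon d hd a ha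
  exact one_ne_zero (h1 hx : (1 : K) = 0)

/-- The value at a point. -/
noncomputable def evH (t : K) : K[X] →ₐ[ℂ] K := (Polynomial.aeval t).restrictScalars ℂ

lemma evH_apply (t : K) (p : K[X]) : evH t p = p.eval t := by
  change Polynomial.aeval t p = _
  rw [Polynomial.coe_aeval_eq_eval]

variable [Algebra k K] [IsScalarTower ℂ k K]

/-- Extension of scalars. -/
noncomputable def bcH (k K : Type) [Field k] [Algebra ℂ k] [Field K] [Algebra ℂ K] [Algebra k K]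
    [IsScalarTower ℂ k K] : k[X] →ₐ[ℂ] K[X] :=
  Polynomial.mapAlgHom (IsScalarTower.toAlgHom ℂ k K)

lemma bcH_apply (p : k[X]) : bcH k K p = p.map (algebraMap k K) := rfl

lemma bcH_coeff (p : k[X]) (i : ℕ) : (bcH k K p).coeff i = algebraMap k K (p.coeff i) := by
  rw [bcH_apply, coeff_map]

lemma bcH_eval (p : k[X]) (t : K) : (bcH k K p).eval t = aeval t p := by
  rw [bcH_apply, aeval_def, eval₂_eq_eval_map]

lemma curve_bc [IsAlgClosed k] {f : R →ₐ[ℂ] k[X]} (hf : IsCurve 𝒜 k 1 f) :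
    IsCurve 𝒜 K 1 ((bcH k K).comp f) := by
  refine ⟨fun d a ha => ?_, fun t => ?_, ?_⟩
  · rw [AlgHom.comp_apply, bcH_apply]
    exact natDegree_map_le.trans (hf.deg d a ha)
  · obtain ⟨d, hd, a, ha, hne⟩ := off_of_en (EN.comp' (EN.comp' hf.en (bcH k K)) (evH t))
    refine ⟨d, hd, a, ha, ?_⟩
    rwa [AlgHom.comp_apply, evH_apply] at hne
  · obtain ⟨d, hd, a, ha, hne⟩ := hf.top
    refine ⟨d, hd, a, ha, ?_⟩
    rw [AlgHom.comp_apply, bcH_coeff]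
    rwa [Ne, map_eq_zero]

/-- Extension of scalars of a section. -/
noncomputable def bcV (K : Type) [Field K] [Algebra ℂ K] [Algebra k K] [IsScalarTower ℂ k K]
    (V : R →ₗ[ℂ] k[X]) : R →ₗ[ℂ] K[X] := (bcH k K).toLinearMap.comp V

lemma bcV_apply (V : R →ₗ[ℂ] k[X]) (r : R) : bcV K V r = bcH k K (V r) := rfl

lemma sec_bc {f : R →ₐ[ℂ] k[X]} {V : R →ₗ[ℂ] k[X]} (hV : Sec 𝒜 f V) :
    Sec 𝒜 ((bcH k K).comp f) (bcV K V) := by
  refine ⟨⟨fun a b => ?_⟩, fun d a ha => ?_⟩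
  · rw [bcV_apply, hV.der.mul, map_add, map_mul, map_mul]
    rfl
  · rw [bcV_apply, bcH_apply]
    exact natDegree_map_le.trans (hV.deg d a ha)

lemma sec_sum {f : R →ₐ[ℂ] k[X]} {N : ℕ} {V : Fin N → (R →ₗ[ℂ] k[X])} (hV : ∀ i, Sec 𝒜 f (V i))
    (c : Fin N → K) : Sec 𝒜 ((bcH k K).comp f) (∑ i, c i • bcV K (V i)) :=
  Submodule.sum_mem (HS 𝒜 ((bcH k K).comp f)) fun i _ =>
    Submodule.smul_mem _ _ (sec_bc (hV i))

lemma sum_coeff {N : ℕ} (V : Fin N → (R →ₗ[ℂ] k[X])) (c : Fin N → K) (r : R) (j : ℕ) :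
    ((∑ i, c i • bcV K (V i)) r).coeff j = ∑ i, c i * algebraMap k K ((V i r).coeff j) := by
  rw [LinearMap.sum_apply, finsetSum_coeff]
  refine sum_congr rfl fun i _ => ?_
  rw [LinearMap.smul_apply, coeff_smul, bcV_apply, bcH_coeff, smul_eq_mul]

lemma gga_bc [IsAlgClosed k] (C : Core 𝒜 br) {f : R →ₐ[ℂ] k[X]} (hf : IsCurve 𝒜 k 1 f)
    (hgg : GGA 𝒜 f) {N : ℕ} {V : Fin N → (R →ₗ[ℂ] k[X])} (hV : ∀ i, Sec 𝒜 f (V i))
    (hsp : ∀ W, Sec 𝒜 f W → ∃ c : Fin N → k, W = ∑ i, c i • V i) :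
    GGA 𝒜 ((bcH k K).comp f) := by
  intro lam δ hδ
  obtain ⟨c, hc⟩ := Spec.bc C hf hgg hV hsp lam δ (fun a b => by
    rw [hδ, AlgHom.comp_apply, AlgHom.comp_apply, bcH_eval, bcH_eval])
  refine ⟨_, sec_sum hV c, fun r => ?_⟩
  rw [hc, LinearMap.sum_apply, eval_finsetSum]
  refine sum_congr rfl fun i _ => ?_
  rw [LinearMap.smul_apply, eval_smul, bcV_apply, bcH_eval, smul_eq_mul]

end field

/-- The field of parameters. -/
noncomputable abbrev toK (k : Type) [Field k] [Algebra ℂ k] :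
    (PowerSeries k)[X] →ₐ[ℂ] (Kc k)[X] :=
  Polynomial.mapAlgHom (IsScalarTower.toAlgHom ℂ (PowerSeries k) (Kc k))

lemma toK_apply (p : (PowerSeries k)[X]) : toK k p = p.map (algebraMap (PowerSeries k) (Kc k)) :=
  rfl

lemma algMap_inj : Function.Injective (algebraMap (PowerSeries k) (Kc k)) := by
  rw [IsScalarTower.algebraMap_eq (PowerSeries k) (FractionRing (PowerSeries k)) (Kc k),
    RingHom.coe_comp]
  exact (algebraMap (FractionRing (PowerSeries k)) (Kc k)).injective.comp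
    (IsFractionRing.injective _ _)

/-- **Deformation of a pair of free lines.** -/
theorem exists_family [IsAlgClosed k] [IsDomain R] (C : Core 𝒜 br) {n : ℕ}
    (hdim : ringKrullDim R = (2 * n : ℕ)) {f₁ g₁ f₂ g₂ : R →ₐ[ℂ] k[X]} (h₁ : FL 𝒜 k f₁ g₁)
    (h₂ : FL 𝒜 k f₂ g₂) (h0 : ∀ r, (f₁ r).coeff 0 = (f₂ r).coeff 0) {L₀ : List (R × k)}
    (hL₀ : ∀ r, (f₂ r).coeff 1 = (L₀.map fun q => q.2 * (f₁ (br q.1 r)).coeff 0).sum)
    (hne : (L₀.map fun q => q.2 * (f₁ q.1).coeff 1).sum ≠ 0) :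
    Pool.Agent.Helper4.LE.HasFreeLine 𝒜 ∧ Pool.Agent.Helper17.CE.HasConicFamily 𝒜 br n := by
  have hlift : Lift 𝒜 := NS.Spec.lift C
  have hev : ∀ r, (f₁ r).eval 0 = (f₂ r).eval 0 := fun r => by
    rw [← coeff_zero_eq_eval_zero, ← coeff_zero_eq_eval_zero, h0]
  -- the dimensions
  have hrk := Spec.rk C hdim (EN.comp' h₁.cur.en (evH (0 : k)))
  have hfun : (⇑((evH (0 : k)).comp f₁) : R → k) = fun a => (f₁ a).eval 0 := by
    funext a
    rw [AlgHom.comp_apply, evH_apply]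
  rw [hfun] at hrk
  have hr₁ := Spec.rr C h₁
  have hr₂ := Spec.rr C h₂
  obtain ⟨N, V₁, V₂, hV₁, hV₂, hV0, hsp₁, hsp₂, s, e, hs, hdet⟩ :=
    Spec.exists_pairs h₁ h₂ hev hrk hr₁ hr₂
  -- extension of the field
  set φ := bcH k (Kl k N) with hφ
  set f₁' := φ.comp f₁ with hf₁'
  set f₂' := φ.comp f₂ with hf₂'
  have hc₁ : IsCurve 𝒜 (Kl k N) 1 f₁' := curve_bc h₁.cur
  have hc₂ : IsCurve 𝒜 (Kl k N) 1 f₂' := curve_bc h₂.cur
  have hg₁ : GGA 𝒜 f₁' := gga_bc C h₁.cur h₁.gg hV₁ hsp₁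
  have hg₂ : GGA 𝒜 f₂' := gga_bc C h₂.cur h₂.gg hV₂ hsp₂
  set W₁ : R →ₗ[ℂ] (Kl k N)[X] := ∑ i, pl k i • bcV (Kl k N) (V₁ i) with hW₁
  set W₂ : R →ₗ[ℂ] (Kl k N)[X] := ∑ i, pl k i • bcV (Kl k N) (V₂ i) with hW₂
  have hS₁ : Sec 𝒜 f₁' W₁ := sec_sum hV₁ _
  have hS₂ : Sec 𝒜 f₂' W₂ := sec_sum hV₂ _
  have hW0 : ∀ r, (W₁ r).coeff 0 = (W₂ r).coeff 0 := by
    intro r
    rw [hW₁, hW₂, sum_coeff, sum_coeff]
    exact sum_congr rfl fun i _ => by rw [hV0]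
  have hf0 : ∀ r, (f₁' r).coeff 0 = (f₂' r).coeff 0 := by
    intro r
    rw [hf₁', hf₂', AlgHom.comp_apply, AlgHom.comp_apply, hφ, bcH_coeff, bcH_coeff, h0]
  -- the deformation of the common point
  have hp' : EN 𝒜 ((evH (0 : Kl k N)).comp f₁') := EN.comp' hc₁.en _
  have hpap : ∀ r, (evH (0 : Kl k N)).comp f₁' r = (f₁' r).coeff 0 := by
    intro r
    rw [AlgHom.comp_apply, evH_apply, coeff_zero_eq_eval_zero]
  let v : R →ₗ[ℂ] Kl k N := (evH (0 : Kl k N)).toLinearMap.comp W₁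
  have hvap : ∀ r, v r = (W₁ r).coeff 0 := by
    intro r
    change evH (0 : Kl k N) (W₁ r) = _
    rw [evH_apply, coeff_zero_eq_eval_zero]
  have hv : IsDer ((evH (0 : Kl k N)).comp f₁') v := by
    refine ⟨fun a b => ?_⟩
    rw [hvap, hvap, hvap, hpap, hpap, hS₁.der.mul, coeff_add, mul_coeff_zero, mul_coeff_zero]
  obtain ⟨P, hP0, hP1⟩ := Spec.exists_P hlift hp' hv
  obtain ⟨F₁, hF₁d, hF₁P, hF₁0, hF₁1⟩ := Spec.deform C hlift hc₁ hg₁ hS₁ P
    (fun r => by rw [hP0, hpap]) (fun r => by rw [hP1, hvap])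
  obtain ⟨F₂, hF₂d, hF₂P, hF₂0, hF₂1⟩ := Spec.deform C hlift hc₂ hg₂ hS₂ P
    (fun r => by rw [hP0, hpap, hf0]) (fun r => by rw [hP1, hvap, hW0])
  have hD₁ : Def1 𝒜 f₁ V₁ F₁ := by
    refine ⟨hF₁d, fun r i => ?_, fun r i => ?_⟩
    · rw [hF₁0, hf₁', AlgHom.comp_apply, hφ, bcH_coeff]
    · rw [hF₁1, hW₁, sum_coeff]
  have hD₂ : Def1 𝒜 f₂ V₂ F₂ := by
    refine ⟨hF₂d, fun r i => ?_, fun r i => ?_⟩
    · rw [hF₂0, hf₂', AlgHom.comp_apply, hφ, bcH_coeff]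
    · rw [hF₂1, hW₂, sum_coeff]
  -- the generic lines
  let fK₁ : R →ₐ[ℂ] (Kc (Kl k N))[X] := (toK (Kl k N)).comp F₁
  let fK₂ : R →ₐ[ℂ] (Kc (Kl k N))[X] := (toK (Kl k N)).comp F₂
  have hfK₁ : ∀ r, fK₁ r = (F₁ r).map (algebraMap (PowerSeries (Kl k N)) (Kc (Kl k N))) :=
    fun r => rfl
  have hfK₂ : ∀ r, fK₂ r = (F₂ r).map (algebraMap (PowerSeries (Kl k N)) (Kc (Kl k N))) :=
    fun r => rfl
  have hcK₁ := Spec.curve_def h₁ hD₁ fK₁ hfK₁
  have hcK₂ := Spec.curve_def h₂ hD₂ fK₂ hfK₂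
  have hsub₁ := Spec.sub_all C h₁ hV₁ hsp₁ hD₁ fK₁ hfK₁
  have hsub₂ := Spec.sub_all C h₂ hV₂ hsp₂ hD₂ fK₂ hfK₂
  obtain ⟨h₁', V', hV', hsp', G, hG, hrev⟩ := Spec.rev_def h₁ hV₁ hsp₁ hD₁
  let gK₁ : R →ₐ[ℂ] (Kc (Kl k N))[X] := (toK (Kl k N)).comp G
  have hgK₁ : ∀ r, gK₁ r = (G r).map (algebraMap (PowerSeries (Kl k N)) (Kc (Kl k N))) :=
    fun r => rfl
  have hcg := Spec.curve_def h₁' hG gK₁ hgK₁
  have hsubg := Spec.sub_all C h₁' hV' hsp' hG gK₁ hgK₁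
  refine ⟨⟨Kc (Kl k N), inferInstance, inferInstance, inferInstance, fK₁, gK₁, hcK₁, hcg, ?_,
    hsub₁, hsubg⟩, ?_⟩
  · intro d a ha i j hij
    rw [hfK₁, hgK₁, coeff_map, coeff_map, hrev d a ha i j hij]
  -- non-orthogonality
  have hF0 : ∀ r, (F₁ r).coeff 0 = (F₂ r).coeff 0 := fun r => by rw [hF₁P, hF₂P]
  obtain ⟨L, hL, hLne⟩ := Spec.nonorth C hc₁.en
    (L₀ := L₀.map fun q => (q.1, algebraMap k (Kl k N) q.2))
    (f₂ := f₂') (fun r => by
      rw [hf₂', AlgHom.comp_apply, hφ, bcH_coeff, hL₀, map_list_sum, List.map_map, List.map_map]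
      congr 1
      refine List.map_congr_left fun q _ => ?_
      simp only [Function.comp, map_mul, hf₁', AlgHom.comp_apply, hφ, bcH_coeff])
    (by
      have h3 : ((L₀.map fun q => (q.1, algebraMap k (Kl k N) q.2)).map
          fun q => q.2 * (f₁' q.1).coeff 1).sum =
          algebraMap k (Kl k N) (L₀.map fun q => q.2 * (f₁ q.1).coeff 1).sum := by
        rw [map_list_sum, List.map_map, List.map_map]
        congr 1
        refine List.map_congr_left fun q _ => ?_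
        simp only [Function.comp, map_mul, hf₁', AlgHom.comp_apply, hφ, bcH_coeff]
      rw [h3, Ne, map_eq_zero]
      exact hne) hF0 hF₁0 hF₂0
  -- the number of parameters
  let A : Matrix (Fin (4 * n)) (Fin N) k := Matrix.of fun l i =>
    (if (s l).1 then V₁ i (s l).2.1 else V₂ i (s l).2.1).coeff (s l).2.2
  let y : Fin (4 * n) → PowerSeries (Kl k N) := fun l =>
    (if (s l).1 then F₁ (s l).2.1 else F₂ (s l).2.1).coeff (s l).2.2
  have hy := Spec.indep A e hdet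
    (fun l => (if (s l).1 then f₁ (s l).2.1 else f₂ (s l).2.1).coeff (s l).2.2) y
    (fun l => by
      dsimp only [y]
      split_ifs
      · exact hD₁.c0 _ _
      · exact hD₂.c0 _ _)
    (fun l => by
      dsimp only [y, A]
      simp only [Matrix.of_apply]
      split_ifs
      · exact hD₁.c1 _ _
      · exact hD₂.c1 _ _)
  refine NS.conic_family C hcK₁ hcK₂ (NS.Spec.gg_of_sub hcK₁ hsub₁)
    (NS.Spec.gg_of_sub hcK₂ hsub₂) (fun r => by rw [hfK₁, hfK₂, coeff_map, coeff_map, hF0])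
    (L₀ := L.map fun q => (q.1, algebraMap (PowerSeries (Kl k N)) (Kc (Kl k N)) q.2))
    (fun r => ?_) ?_ _ hy (fun l => ?_)
  · rw [hfK₂, coeff_map, hL, map_list_sum, List.map_map, List.map_map]
    congr 1
    refine List.map_congr_left fun q _ => ?_
    simp only [Function.comp, map_mul, hfK₁, coeff_map]
  · have h3 : ((L.map fun q => (q.1, algebraMap (PowerSeries (Kl k N)) (Kc (Kl k N)) q.2)).map
        fun q => q.2 * (fK₁ q.1).coeff 1).sum =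
        algebraMap (PowerSeries (Kl k N)) (Kc (Kl k N))
          (L.map fun q => q.2 * (F₁ q.1).coeff 1).sum := by
      rw [map_list_sum, List.map_map, List.map_map]
      congr 1
      refine List.map_congr_left fun q _ => ?_
      simp only [Function.comp, map_mul, hfK₁, coeff_map]
    rw [h3]
    intro h4
    exact hLne (algMap_inj (by rw [h4, map_zero]))
  · obtain ⟨d, ha⟩ := hs l
    refine ⟨d, (s l).2.1, ha, (s l).2.2, ?_⟩
    by_cases hb : (s l).1 = true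
    · left
      dsimp only [y]
      rw [if_pos hb, hfK₁, coeff_map]
    · right
      dsimp only [y]
      rw [if_neg hb, hfK₂, coeff_map]

end Pool.Agent.Helper58.DP
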