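import Pool.Agent.Helper58.DP.Def

/-!
# Deformation of a pair of free lines: statements (swarm DP)
-/

set_option autoImplicit false
set_option linter.unusedSectionVars false

open Polynomial Finset DirectSum

namespace Pool.Agent.Helper58.DP.Spec

open Pool.Agent.Helper766_CF Pool.Agent.Helper766_CG Pool.Agent.Helper766_CH
open Pool.Agent.Helper58.CS Pool.Agent.Helper58.OP Pool.Agent.Helper58.SH Pool.Agent.Helper58.BG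
open Pool.Agent.Helper58.LC Pool.Agent.Helper58.NS Pool.Agent.Helper58.DP

variable {R : Type} [CommRing R] [Algebra ℂ R] {𝒜 : ℕ → Submodule ℂ R} [GradedAlgebra 𝒜]
  {br : R →ₗ[ℂ] R →ₗ[ℂ] R} {k : Type} [Field k] [Algebra ℂ k] [IsAlgClosed k]

/-- A1. The dimension of the tangent spaces. -/
theorem rk [IsDomain R] (C : Core 𝒜 br) {n : ℕ} (hdim : ringKrullDim R = (2 * n : ℕ))
    {p : R →ₐ[ℂ] k} (hp : EN 𝒜 p) :
    Module.Finite k (E0 p) ∧ 2 * n ≤ Module.finrank k (E0 p) := sorry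

/-- A2. Riemann-Roch along a free line. -/
theorem rr (C : Core 𝒜 br) {f g : R →ₐ[ℂ] k[X]} (h : FL 𝒜 k f g) :
    Module.Finite k (HS 𝒜 f) ∧
      2 * Module.finrank k (HS 𝒜 f) = 3 * Module.finrank k (E0 fun a => (f a).eval 0) := sorry

/-- A3. The deformations of a pair of lines. -/
theorem exists_pairs {f₁ g₁ f₂ g₂ : R →ₐ[ℂ] k[X]} (h₁ : FL 𝒜 k f₁ g₁) (h₂ : FL 𝒜 k f₂ g₂)
    (h0 : ∀ r, (f₁ r).eval 0 = (f₂ r).eval 0) {n : ℕ}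
    (hrk : Module.Finite k (E0 fun a => (f₁ a).eval 0) ∧
      2 * n ≤ Module.finrank k (E0 fun a => (f₁ a).eval 0))
    (hr₁ : Module.Finite k (HS 𝒜 f₁) ∧
      2 * Module.finrank k (HS 𝒜 f₁) = 3 * Module.finrank k (E0 fun a => (f₁ a).eval 0))
    (hr₂ : Module.Finite k (HS 𝒜 f₂) ∧
      2 * Module.finrank k (HS 𝒜 f₂) = 3 * Module.finrank k (E0 fun a => (f₂ a).eval 0)) :
    ∃ (N : ℕ) (V₁ V₂ : Fin N → (R →ₗ[ℂ] k[X])), (∀ i, Sec 𝒜 f₁ (V₁ i)) ∧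
      (∀ i, Sec 𝒜 f₂ (V₂ i)) ∧ (∀ i r, (V₁ i r).coeff 0 = (V₂ i r).coeff 0) ∧
      (∀ V, Sec 𝒜 f₁ V → ∃ c : Fin N → k, V = ∑ i, c i • V₁ i) ∧
      (∀ V, Sec 𝒜 f₂ V → ∃ c : Fin N → k, V = ∑ i, c i • V₂ i) ∧
      ∃ (s : Fin (4 * n) → Bool × R × ℕ) (e : Fin (4 * n) → Fin N),
        (∀ l, ∃ d, (s l).2.1 ∈ 𝒜 d) ∧
        (Matrix.of fun l i => ((if (s l).1 then V₁ (e i) (s l).2.1
          else V₂ (e i) (s l).2.1).coeff (s l).2.2 : k)).det ≠ 0 := sorry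

/-- B. The sections generate over every field. -/
theorem bc (C : Core 𝒜 br) {f : R →ₐ[ℂ] k[X]} (hf : IsCurve 𝒜 k 1 f) (hgg : GGA 𝒜 f) {N : ℕ}
    {V : Fin N → (R →ₗ[ℂ] k[X])} (hV : ∀ i, Sec 𝒜 f (V i))
    (hsp : ∀ W, Sec 𝒜 f W → ∃ c : Fin N → k, W = ∑ i, c i • V i) {K : Type} [Field K]
    [Algebra ℂ K] [Algebra k K] [IsScalarTower ℂ k K] (lam : K) (δ : R →ₗ[ℂ] K)
    (hδ : ∀ a b, δ (a * b) = aeval lam (f a) * δ b + aeval lam (f b) * δ a) :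
    ∃ c : Fin N → K, ∀ r, δ r = ∑ i, c i * aeval lam (V i r) := sorry

/-- D0. Points lift. -/
theorem exists_P (hlift : Lift 𝒜) {p : R →ₐ[ℂ] k}
    (hp : EN 𝒜 p) {v : R →ₗ[ℂ] k} (hv : IsDer p v) :
    ∃ P : R →ₐ[ℂ] PowerSeries k, (∀ r, PowerSeries.coeff 0 (P r) = p r) ∧
      ∀ r, PowerSeries.coeff 1 (P r) = v r := sorry

/-- D. Free lines deform, with a given point. -/
theorem deform (C : Core 𝒜 br)
    (hlift : Lift 𝒜) {f : R →ₐ[ℂ] k[X]} (hf : IsCurve 𝒜 k 1 f) (hgg : GGA 𝒜 f)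
    {V : R →ₗ[ℂ] k[X]} (hV : Sec 𝒜 f V) (P : R →ₐ[ℂ] PowerSeries k)
    (hP0 : ∀ r, PowerSeries.coeff 0 (P r) = (f r).coeff 0)
    (hP1 : ∀ r, PowerSeries.coeff 1 (P r) = (V r).coeff 0) :
    ∃ F : R →ₐ[ℂ] (PowerSeries k)[X], (∀ d, ∀ a ∈ 𝒜 d, (F a).natDegree ≤ d) ∧
      (∀ r, (F r).coeff 0 = P r) ∧
      (∀ r i, PowerSeries.coeff 0 ((F r).coeff i) = (f r).coeff i) ∧
      ∀ r i, PowerSeries.coeff 1 ((F r).coeff i) = (V r).coeff i := sorry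

/-- E1. The generic member of the deformation is a curve. -/
theorem curve_def {N : ℕ} {f g : R →ₐ[ℂ] k[X]} (h : FL 𝒜 k f g)
    {V : Fin N → (R →ₗ[ℂ] k[X])} {F : R →ₐ[ℂ] (PowerSeries (Kl k N))[X]} (hF : Def1 𝒜 f V F)
    (fK : R →ₐ[ℂ] (Kc (Kl k N))[X])
    (hfK : ∀ r, fK r = (F r).map (algebraMap (PowerSeries (Kl k N)) (Kc (Kl k N)))) :
    IsCurve 𝒜 (Kc (Kl k N)) 1 fK := sorry

/-- E2. The reversed chart of the deformation. -/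
theorem rev_def {N : ℕ} {f g : R →ₐ[ℂ] k[X]} (h : FL 𝒜 k f g)
    {V : Fin N → (R →ₗ[ℂ] k[X])} (hV : ∀ i, Sec 𝒜 f (V i))
    (hsp : ∀ W, Sec 𝒜 f W → ∃ c : Fin N → k, W = ∑ i, c i • V i)
    {F : R →ₐ[ℂ] (PowerSeries (Kl k N))[X]} (hF : Def1 𝒜 f V F) :
    FL 𝒜 k g f ∧ ∃ V' : Fin N → (R →ₗ[ℂ] k[X]), (∀ i, Sec 𝒜 g (V' i)) ∧
      (∀ W, Sec 𝒜 g W → ∃ c : Fin N → k, W = ∑ i, c i • V' i) ∧
      ∃ G : R →ₐ[ℂ] (PowerSeries (Kl k N))[X], Def1 𝒜 g V' G ∧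
        ∀ d, ∀ a ∈ 𝒜 d, ∀ i j, i + j = d → (F a).coeff i = (G a).coeff j := sorry

/-- E3. The evaluation map is a submersion at the integral points. -/
theorem sub_int (C : Core 𝒜 br) {N : ℕ} {f : R →ₐ[ℂ] k[X]} (hf : IsCurve 𝒜 k 1 f)
    {V : Fin N → (R →ₗ[ℂ] k[X])} (hV : ∀ i, Sec 𝒜 f (V i))
    (hbc : ∀ (κ : Type) [Field κ] [Algebra ℂ κ] [Algebra k κ] [IsScalarTower ℂ k κ] (lam : κ) (δ : R →ₗ[ℂ] κ),
      (∀ a b, δ (a * b) = aeval lam (f a) * δ b + aeval lam (f b) * δ a) →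
      ∃ c : Fin N → κ, ∀ r, δ r = ∑ i, c i * aeval lam (V i r))
    {F : R →ₐ[ℂ] (PowerSeries (Kl k N))[X]} (hF : Def1 𝒜 f V F)
    (fK : R →ₐ[ℂ] (Kc (Kl k N))[X])
    (hfK : ∀ r, fK r = (F r).map (algebraMap (PowerSeries (Kl k N)) (Kc (Kl k N))))
    (O : ValuationSubring (Kc (Kl k N)))
    (hO : ∀ x : PowerSeries (Kl k N), algebraMap _ (Kc (Kl k N)) x ∈ O)
    (hO1 : O.valuation (algebraMap (PowerSeries (Kl k N)) (Kc (Kl k N)) PowerSeries.X) < 1)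
    {t : Kc (Kl k N)} (ht : t ∈ O) (δ : R →ₗ[ℂ] Kc (Kl k N))
    (hδ : ∀ a b, δ (a * b) = (fK a).eval t * δ b + (fK b).eval t * δ a) :
    ∃ D : Derivation ℂ (Kc (Kl k N)) (Kc (Kl k N)), ∀ r, δ r = (fK r).sum fun i c => D c * t ^ i :=
  sorry

/-- E4. The evaluation map is a submersion at all points. -/
theorem sub_all (C : Core 𝒜 br) {N : ℕ} {f g : R →ₐ[ℂ] k[X]} (h : FL 𝒜 k f g)
    {V : Fin N → (R →ₗ[ℂ] k[X])} (hV : ∀ i, Sec 𝒜 f (V i))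
    (hsp : ∀ W, Sec 𝒜 f W → ∃ c : Fin N → k, W = ∑ i, c i • V i)
    {F : R →ₐ[ℂ] (PowerSeries (Kl k N))[X]} (hF : Def1 𝒜 f V F)
    (fK : R →ₐ[ℂ] (Kc (Kl k N))[X])
    (hfK : ∀ r, fK r = (F r).map (algebraMap (PowerSeries (Kl k N)) (Kc (Kl k N)))) :
    ∀ t, Pool.Agent.Helper4.LE.SubAt fK t := sorry

/-- I. The generic direction has as many parameters as possible. -/
theorem indep {N M : ℕ} (A : Matrix (Fin M) (Fin N) k) (e : Fin M → Fin N)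
    (hdet : (A.submatrix id e).det ≠ 0) (c : Fin M → k) (y : Fin M → PowerSeries (Kl k N))
    (h0 : ∀ l, PowerSeries.coeff 0 (y l) = algebraMap k (Kl k N) (c l))
    (h1 : ∀ l, PowerSeries.coeff 1 (y l) = ∑ m, pl k m * algebraMap k (Kl k N) (A l m)) :
    AlgebraicIndependent ℂ fun l => algebraMap (PowerSeries (Kl k N)) (Kc (Kl k N)) (y l) := sorry

/-- O. Non-orthogonality is preserved. -/
theorem nonorth (C : Core 𝒜 br) {f₁ f₂ : R →ₐ[ℂ] k[X]}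
    (hf₁ : EN 𝒜 f₁) {L₀ : List (R × k)}
    (hL₀ : ∀ r, (f₂ r).coeff 1 = (L₀.map fun q => q.2 * (f₁ (br q.1 r)).coeff 0).sum)
    (hne : (L₀.map fun q => q.2 * (f₁ q.1).coeff 1).sum ≠ 0)
    {F₁ F₂ : R →ₐ[ℂ] (PowerSeries k)[X]} (h0 : ∀ r, (F₁ r).coeff 0 = (F₂ r).coeff 0)
    (h₁ : ∀ r i, PowerSeries.coeff 0 ((F₁ r).coeff i) = (f₁ r).coeff i)
    (h₂ : ∀ r i, PowerSeries.coeff 0 ((F₂ r).coeff i) = (f₂ r).coeff i) :
    ∃ L : List (R × PowerSeries k),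
      (∀ r, (F₂ r).coeff 1 = (L.map fun q => q.2 * (F₁ (br q.1 r)).coeff 0).sum) ∧
        (L.map fun q => q.2 * (F₁ q.1).coeff 1).sum ≠ 0 := sorry

end Pool.Agent.Helper58.DP.Spec
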